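import Pool.Agent.H54.WB.Basics

/-!
# First-order definable relations on labelled graphs, with variables in contexts
-/

set_option autoImplicit false

namespace Pool.Agent.H69.WB

open Pool.Agent.H54.WB

/-- relations of `n` elements in labelled graphs -/
abbrev RP (Λ : Type) (n : ℕ) : Type 1 := (V : Type) → (V → Λ) → (V → V → Prop) → (Fin n → V) → Prop

/-- the relation is first-order definable -/
def DF {Λ : Type} (n : ℕ) (r : RP Λ n) : Prop :=
  ∀ f : Fin n → ℕ, Df (fun V lb E e => r V lb E (fun i => e (f i)))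

variable {Λ : Type} {n : ℕ} {r s : RP Λ n}

theorem DF.congr (hr : DF n r) (h : ∀ V lb E w, r V lb E w ↔ s V lb E w) : DF n s := fun f =>
  (hr f).congr fun V lb E e => h V lb E _

theorem DF.lab (s : Λ → Prop) (i : Fin n) : DF n (fun _ lb _ w => s (lb (w i))) := fun f =>
  Df.lab s (f i)

theorem DF.adj (i j : Fin n) : DF (Λ := Λ) n (fun _ _ E w => E (w i) (w j)) := fun f =>
  Df.adj (f i) (f j)

theorem DF.eq (i j : Fin n) : DF (Λ := Λ) n (fun _ _ _ w => w i = w j) := fun f =>
  Df.eq (f i) (f j)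

theorem DF.not (hr : DF n r) : DF n (fun V lb E w => ¬ r V lb E w) := fun f => (hr f).not

theorem DF.and (hr : DF n r) (hs : DF n s) : DF n (fun V lb E w => r V lb E w ∧ s V lb E w) :=
  fun f => (hr f).and (hs f)

theorem DF.or (hr : DF n r) (hs : DF n s) : DF n (fun V lb E w => r V lb E w ∨ s V lb E w) :=
  fun f => (hr f).or (hs f)

theorem DF.imp (hr : DF n r) (hs : DF n s) : DF n (fun V lb E w => r V lb E w → s V lb E w) :=
  fun f => (hr f).imp (hs f)

theorem DF.iff (hr : DF n r) (hs : DF n s) : DF n (fun V lb E w => r V lb E w ↔ s V lb E w) :=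
  fun f => (hr f).iff (hs f)

theorem DF.const (a : Prop) : DF (Λ := Λ) n (fun _ _ _ _ => a) := fun _ => Df.const a

theorem DF.allF {ι : Type} [Finite ι] {r : ι → RP Λ n} (h : ∀ i, DF n (r i)) :
    DF n (fun V lb E w => ∀ i, r i V lb E w) := fun f => Df.allF fun i => h i f

theorem DF.exF {ι : Type} [Finite ι] {r : ι → RP Λ n} (h : ∀ i, DF n (r i)) :
    DF n (fun V lb E w => ∃ i, r i V lb E w) := fun f => Df.exF fun i => h i f

/-- renaming of the variables -/
theorem DF.sub {k : ℕ} {r : RP Λ k} (hr : DF k r) (g : Fin k → Fin n) :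
    DF n (fun V lb E w => r V lb E (fun i => w (g i))) := fun f => hr (fun i => f (g i))

/-- existential quantifiers; the new variable is the last one -/
theorem DF.ex {r : (V : Type) → (V → Λ) → (V → V → Prop) → (Fin n → V) → V → Prop}
    (h : DF (n + 1) (fun V lb E w => r V lb E (fun i => w i.castSucc) (w (Fin.last n)))) :
    DF n (fun V lb E w => ∃ a, r V lb E w a) := by
  intro f
  obtain ⟨z, hz⟩ : ∃ z, ∀ i, f i ≠ z := by
    refine ⟨(∑ i, f i) + 1, fun i hi => ?_⟩
    have h1 : f i ≤ ∑ i, f i := Finset.single_le_sum (f := f) (fun _ _ => Nat.zero_le _)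
      (Finset.mem_univ i)
    omega
  refine Df.exV (r := fun V lb E a w => r V lb E w a) f z hz ?_
  refine (h (Fin.snoc (α := fun _ => ℕ) f z)).congr fun V lb E e => ?_
  simp only [Fin.snoc_castSucc, Fin.snoc_last]

/-- universal quantifiers; the new variable is the last one -/
theorem DF.all {r : (V : Type) → (V → Λ) → (V → V → Prop) → (Fin n → V) → V → Prop}
    (h : DF (n + 1) (fun V lb E w => r V lb E (fun i => w i.castSucc) (w (Fin.last n)))) :
    DF n (fun V lb E w => ∀ a, r V lb E w a) :=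
  (DF.ex (r := fun V lb E w a => ¬ r V lb E w a) h.not).not.congr fun V lb E w => by
    rw [not_exists]
    exact forall_congr' fun a => not_not

/-- relations between two labels -/
theorem DF.lab2 [Finite Λ] (s : Λ → Λ → Prop) (i j : Fin n) :
    DF n (fun _ lb _ w => s (lb (w i)) (lb (w j))) := by
  have h : DF n (fun (V : Type) (lb : V → Λ) (_ : V → V → Prop) w =>
      ∃ a, lb (w i) = a ∧ s a (lb (w j))) :=
    DF.exF fun a => (DF.lab (fun b => b = a) i).and (DF.lab (fun b => s a b) j)
  exact h.congr fun V lb E w => ⟨fun ⟨a, h1, h2⟩ => by rw [h1]; exact h2, fun h1 => ⟨_, rfl, h1⟩⟩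

/-- unique existence -/
theorem DF.exu {r : (V : Type) → (V → Λ) → (V → V → Prop) → (Fin n → V) → V → Prop}
    (h : DF (n + 1) (fun V lb E w => r V lb E (fun i => w i.castSucc) (w (Fin.last n)))) :
    DF n (fun V lb E w => ∃! a, r V lb E w a) := by
  have h1 : DF n (fun V lb E w => ∃ a, r V lb E w a ∧ ∀ b, r V lb E w b → b = a) := by
    refine DF.ex (h.and (DF.all (DF.imp ?_ ?_)))
    · have h2 := h.sub (n := n + 1 + 1) (Fin.snoc (α := fun _ => Fin (n + 1 + 1))
        (fun i => i.castSucc.castSucc) (Fin.last (n + 1)))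
      simp only [Fin.snoc_castSucc, Fin.snoc_last] at h2
      exact h2
    · exact DF.eq (Fin.last (n + 1)) (Fin.last n).castSucc
  exact h1

/-- a family which is trivial from some point on -/
theorem DF.allN {r : ℕ → RP Λ n} (L : ℕ) (h : ∀ l, DF n (r l))
    (ht : ∀ l, L ≤ l → ∀ V lb E w, r l V lb E w) : DF n (fun V lb E w => ∀ l, r l V lb E w) := by
  refine (DF.allF fun l : Fin L => h l).congr fun V lb E w => ⟨fun h1 l => ?_, fun h1 l => h1 l⟩
  rcases Nat.lt_or_ge l L with hl | hl
  · exact h1 ⟨l, hl⟩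
  · exact ht l hl V lb E w

theorem DF.toDf {r : RP Λ 0} {p : LP Λ} (h : DF 0 r)
    (hp : ∀ V lb E e, r V lb E Fin.elim0 ↔ p V lb E e) : Df p := by
  refine (h Fin.elim0).congr fun V lb E e => ?_
  rw [← hp V lb E e]
  have : (fun i : Fin 0 => e (Fin.elim0 i)) = Fin.elim0 := funext fun i => i.elim0
  rw [this]

end Pool.Agent.H69.WB
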