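import Pool.Agent.H54.WB.TargetsB

/-!
# Row TAM: the tame side for tree-depth, path-width and tree-width
-/

set_option autoImplicit false

namespace Pool.Agent.H69.WB

open Pool.Agent.H54.WB Pool.Agent.H76.ADV Pool.Agent.H8.MC Pool.Agent.H69.VR Pool.Agent.H69.Sp

theorem gr_ilog (j : ℕ) {g : ℕ → ℕ} (hg : GR g) : GR (fun u => ilog j (g u)) := by
  induction j with
  | zero => exact hg
  | succ j ih =>
    have e : (fun u => ilog (j + 1) (g u)) = fun u => Nat.log 2 (ilog j (g u)) := by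
      funext u
      exact Function.iterate_succ_apply' _ _ _
    rw [e]
    exact ih.log

/-- a small number which looks like `u` -/
theorem ex_small {u : ℕ} (h : 2 * (ilog 6 u).factorial ≤ ilog 3 u) :
    ∃ n, n < ilog 3 u + 1 ∧ ilog 6 u ≤ n ∧ ∀ g, g < ilog 6 u + 1 → g = 0 ∨ u % g = n % g := by
  set B : ℕ := ilog 6 u with hB
  have hM : 0 < B.factorial := Nat.factorial_pos B
  refine ⟨u % B.factorial + B.factorial, ?_, ?_, ?_⟩
  · have := Nat.mod_lt u hM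
    omega
  · have := Nat.self_le_factorial B
    omega
  · intro g hg
    rcases Nat.eq_zero_or_pos g with h0 | h0
    · exact Or.inl h0
    · right
      have hd : g ∣ B.factorial := Nat.dvd_factorial h0 (by omega)
      rw [Nat.add_mod, Nat.mod_mod_of_dvd _ hd, Nat.mod_eq_zero_of_dvd hd, add_zero, Nat.mod_mod]

theorem key {f : ℕ → ℕ} (hsf : SpecFun f) (Pr : ℕ → ℕ → Prop)
    (hRL : ∀ nf kf : ℕ → ℕ, GR nf → GR kf → (∀ u, nf u * nf u ≤ Nat.log 2 u) →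
      RL (fun u => Pr (nf u) (kf u))) (h c : ℕ)
    (hinv : ∀ k m n, Tw h (k + c) ≤ m → Tw h (k + c) ≤ n →
      (∀ g, 0 < g → g ≤ Tw h (k + c) → m ≡ n [MOD g]) → (Pr m k ↔ Pr n k)) (u0 : ℕ)
    (h1 : ∀ u, u0 ≤ u → f u ≤ u) (h2 : ∀ u, u0 ≤ u → Tw h (f u + c) ≤ ilog 6 u)
    (h3 : ∀ u, u0 ≤ u → 2 * (ilog 6 u).factorial ≤ ilog 3 u)
    (h4 : ∀ n, ilog 3 n * ilog 3 n ≤ Nat.log 2 n) (h5 : ∀ u, ilog 6 u ≤ u) :
    IsSpectrum {u | 0 < u ∧ Pr u (f u)} := by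
  set Gf : Set ℕ := {n | ∃ N, 0 < N ∧ n = Nat.pair N (f N)} with hGf
  have hGs : IsSpectrum Gf := hsf
  -- the innermost predicate; `v = (n, (d, u))`
  set C : ℕ → ℕ → Prop := fun n w => ilog 6 (Nat.unpair w).2 ≤ n ∧
    (∀ g, g < ilog 6 (Nat.unpair w).2 + 1 → (g = 0 ∨ (Nat.unpair w).2 % g = n % g)) ∧
    Pr (n - (n - ilog 3 (Nat.unpair w).2)) (Nat.unpair w).1 with hC
  have gn : GR (fun v => (Nat.unpair v).1) := GR.id.fst
  have gu : GR (fun v => (Nat.unpair (Nat.unpair v).2).2) := GR.id.snd.snd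
  have gd : GR (fun v => (Nat.unpair (Nat.unpair v).2).1) := GR.id.snd.fst
  have rC : RL (fun v => C (Nat.unpair v).1 (Nat.unpair v).2) := by
    refine (RL.le (gr_ilog 6 gu) gn).and (RL.and ?_ ?_)
    · refine RL.all (R := fun g v => g = 0 ∨
        (Nat.unpair (Nat.unpair v).2).2 % g = (Nat.unpair v).1 % g) ?_
        ((gr_ilog 6 gu).add (GR.num 1))
      exact (RL.eq GR.id.fst (GR.num 0)).or
        (RL.eq ((gu.comp GR.id.snd).mod GR.id.fst) ((gn.comp GR.id.snd).mod GR.id.fst))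
    · refine hRL _ _ (gn.sub (gn.sub (gr_ilog 3 gu))) gd fun v => ?_
      set u : ℕ := (Nat.unpair (Nat.unpair v).2).2 with hu
      set n : ℕ := (Nat.unpair v).1 with hn
      have e1 : n - (n - ilog 3 u) ≤ ilog 3 u := by omega
      have e2 : u ≤ v := (Nat.unpair_right_le _).trans (Nat.unpair_right_le _)
      exact (Nat.mul_le_mul e1 e1).trans ((h4 u).trans (Nat.log_mono_right e2))
  have rA : RL (fun w => Nat.pair (Nat.unpair w).2 (Nat.unpair w).1 ∈ Gf ∧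
      ∃ n, n < ilog 3 (Nat.unpair w).2 + 1 ∧ C n w) :=
    (RL.mem hGs (GR.id.snd.pair GR.id.fst)).and
      (RL.ex (R := C) rC ((gr_ilog 3 GR.id.snd).add (GR.num 1)))
  have rR : RL (fun u => ∃ d, d < u + 1 ∧ (Nat.pair u d ∈ Gf ∧
      ∃ n, n < ilog 3 u + 1 ∧ C n (Nat.pair d u))) := by
    refine RL.ex (R := fun d u => Nat.pair u d ∈ Gf ∧
      ∃ n, n < ilog 3 u + 1 ∧ C n (Nat.pair d u)) ?_ (GR.id.add (GR.num 1))
    refine rA.congr fun w => ?_
    rw [Nat.pair_unpair]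
  have hmain : ∀ u, 0 < u → u0 ≤ u → ((∃ d, d < u + 1 ∧ (Nat.pair u d ∈ Gf ∧
      ∃ n, n < ilog 3 u + 1 ∧ C n (Nat.pair d u))) ↔ Pr u (f u)) := by
    intro u hu0 hu
    -- all numbers which look like `u` are as good as `u`
    have inv : ∀ n, n < ilog 3 u + 1 → ilog 6 u ≤ n →
        (∀ g, g < ilog 6 u + 1 → g = 0 ∨ u % g = n % g) →
        (Pr (n - (n - ilog 3 u)) (f u) ↔ Pr u (f u)) := by
      intro n hn hn6 hg
      have e : n - (n - ilog 3 u) = n := by omega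
      rw [e]
      have h20 := h2 u hu
      have h50 := h5 u
      refine hinv _ _ _ (h20.trans hn6) (h20.trans h50) fun g hg0 hgl => ?_
      rcases hg g (by omega) with h6 | h6
      · omega
      · exact h6.symm
    constructor
    · rintro ⟨d, hd, ⟨N, hN, hpN⟩, n, hn, c1, c2, c3⟩
      obtain ⟨e1, e2⟩ := Nat.pair_eq_pair.1 hpN
      rw [Nat.unpair_pair] at c1 c2 c3
      rw [← e1] at e2
      rw [e2] at c3
      exact (inv n hn c1 c2).1 c3
    · intro hP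
      obtain ⟨n, hn, hn6, hg⟩ := ex_small (h3 u hu)
      refine ⟨f u, by have := h1 u hu; omega, ⟨u, hu0, rfl⟩, n, hn, ?_⟩
      simp only [hC]
      rw [Nat.unpair_pair]
      exact ⟨hn6, hg, (inv n hn hn6 hg).2 hP⟩
  have rF := RL.ofSpectrum (fin_isSpectrum u0 {u | Pr u (f u)})
  have rT := (rF.or ((RL.le (GR.num u0) GR.id).and rR)).isSpectrum
  have e : {u | 0 < u ∧ Pr u (f u)} = {u | 0 < u ∧ (u ∈ {u | 0 < u ∧ (u < u0 ∧
      u ∈ {u | Pr u (f u)})} ∨ (u0 ≤ u ∧ ∃ d, d < u + 1 ∧ (Nat.pair u d ∈ Gf ∧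
      ∃ n, n < ilog 3 u + 1 ∧ C n (Nat.pair d u))))} := by
    ext u
    constructor
    · rintro ⟨hu, hP⟩
      refine ⟨hu, ?_⟩
      rcases Nat.lt_or_ge u u0 with h | h
      · exact Or.inl ⟨hu, h, hP⟩
      · exact Or.inr ⟨h, (hmain u hu h).2 hP⟩
    · rintro ⟨hu, ⟨_, _, hP⟩ | ⟨h, hR⟩⟩
      · exact ⟨hu, hP⟩
      · exact ⟨hu, (hmain u hu h).1 hR⟩
  rw [e]
  exact rT

theorem ilog_le (j u : ℕ) : ilog j u ≤ u := by
  induction j with
  | zero => exact le_rfl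
  | succ j ih =>
    have e : ilog (j + 1) u = Nat.log 2 (ilog j u) := Function.iterate_succ_apply' _ _ _
    rw [e]
    exact (Nat.log_le_self 2 _).trans ih

theorem pf_TAM (hPDK : T_PDK) (hBRU : T_BRU) (hLOW : T_LOW) (hLGF : T_LGF) : T_TAM := by
  intro W f hf hsf Ψ hB
  obtain ⟨h, c, hinv⟩ := hPDK W Ψ hB
  obtain ⟨a1, ha1⟩ := hf 0
  obtain ⟨a2, ha2⟩ := hLOW f hf h c 6
  obtain ⟨⟨a3, ha3⟩, h4⟩ := hLGF
  have e1 : IsSpectrum {u | 0 < u ∧ u ∈ SZ W Ψ (f u)} :=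
    key hsf (fun n k => n ∈ SZ W Ψ k) (fun nf kf hn hk hb => (hBRU W Ψ hB nf kf hn hk hb).1) h c
      hinv (a1 + a2 + a3) (fun u hu => ha1 u (by omega)) (fun u hu => ha2 u (by omega))
      (fun u hu => ha3 u (by omega)) h4 (ilog_le 6)
  have e2 : IsSpectrum {u | 0 < u ∧ u ∉ SZ W Ψ (f u)} :=
    key hsf (fun n k => n ∉ SZ W Ψ k) (fun nf kf hn hk hb => (hBRU W Ψ hB nf kf hn hk hb).2) h c
      (fun k m n hm hn hg => not_congr (hinv k m n hm hn hg)) (a1 + a2 + a3)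
      (fun u hu => ha1 u (by omega)) (fun u hu => ha2 u (by omega))
      (fun u hu => ha3 u (by omega)) h4 (ilog_le 6)
  have e0 : ∀ u, u ∈ specF (W.upTo f) Ψ ↔ u ∈ SZ W Ψ (f u) := fun u => Iff.rfl
  constructor
  · have e3 : specF (W.upTo f) Ψ = {u | 0 < u ∧ u ∈ SZ W Ψ (f u)} := by
      ext u
      exact ⟨fun hu => ⟨hu.1, (e0 u).1 hu⟩, fun hu => (e0 u).2 hu.2⟩
    rw [e3]
    exact e1
  · exact e2

end Pool.Agent.H69.WB
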