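import Pool.Agent.H54.WB.TargetsB

/-!
# Row BRU: the set of the models is in the calculus
-/

set_option autoImplicit false

namespace Pool.Agent.H69.WB

open Pool.Agent.H54.WB Pool.Agent.H76.ADV Pool.Agent.H8.MC Pool.Agent.H69.VR

theorem gr_ps (W : Width) {kf : ℕ → ℕ} (hk : GR kf) : GR (fun u => W.ps (kf u)) := by
  cases W with
  | depth => exact hk
  | path => exact hk.add (GR.num 1)
  | tree => exact hk.add (GR.num 1)

theorem sz_pos {W : Width} {Ψ : MS} {k n : ℕ} (h : n ∈ SZ W Ψ k) : 0 < n := h.1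

theorem pf_BRU (hSOR : T_SOR) (hSOW : T_SOW) : T_BRU := by
  intro W Ψ hB nf kf hn hk hbd
  obtain ⟨φ, hφ⟩ := hSOW W Ψ hB
  obtain ⟨r1, r2⟩ := hSOR φ nf (fun u => W.ps (kf u)) hn (gr_ps W hk) hbd
  refine ⟨((RL.lt (GR.num 0) hn).and r1).congr fun u => ?_,
    ((RL.eq hn (GR.num 0)).or r2).congr fun u => ?_⟩
  · constructor
    · rintro ⟨h1, h2⟩
      exact (hφ _ _ h1).2 h2
    · intro h
      exact ⟨sz_pos h, (hφ _ _ (sz_pos h)).1 h⟩
  · constructor
    · rintro (h | h) h3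
      · have := sz_pos h3
        omega
      · exact h ((hφ _ _ (sz_pos h3)).1 h3)
    · intro h
      by_cases h0 : nf u = 0
      · exact Or.inl h0
      · exact Or.inr fun h3 => h ((hφ _ _ (by omega)).2 h3)

end Pool.Agent.H69.WB
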