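import Pool.Agent.H54.WB.TargetsA

/-!
# Row GRT: the sizes are functions of the calculus
-/

set_option autoImplicit false

namespace Pool.Agent.H69.WB

open Pool.Agent.H54.WB Pool.Agent.H76.ADV

theorem clog_eq (K : ℕ) : Nat.clog 2 K = Nat.log 2 (2 * (K - 1)) := by
  rcases Nat.lt_or_ge K 2 with h | h
  · have h0 : K = 0 ∨ K = 1 := by omega
    rcases h0 with rfl | rfl <;> simp
  · have e1 : Nat.log 2 (2 * (K - 1)) = Nat.log 2 (K - 1) + 1 := by
      rw [mul_comm]
      exact Nat.log_mul_base (by norm_num) (by omega)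
    have h1 : ∀ c, Nat.clog 2 K ≤ c ↔ Nat.log 2 (K - 1) + 1 ≤ c := by
      intro c
      rw [Nat.clog_le_iff_le_pow (by norm_num), Nat.succ_le_iff,
        Nat.log_lt_iff_lt_pow (by norm_num) (by omega)]
      omega
    rw [e1]
    exact le_antisymm ((h1 _).2 le_rfl) ((h1 _).1 le_rfl)

theorem GR.clog {f : ℕ → ℕ} (hf : GR f) : GR (fun u => Nat.clog 2 (f u)) := by
  have h := ((GR.num 2).mul (hf.sub (GR.num 1))).log
  have e : (fun u => Nat.clog 2 (f u)) = fun u => Nat.log 2 (2 * (f u - 1)) := by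
    funext u
    exact clog_eq _
  rw [e]
  exact h

theorem GR.dd (L : ℕ) : GR (fun K => dd L K) := by
  induction L with
  | zero => exact GR.id
  | succ L ih =>
    have e : (fun K => Pool.Agent.H54.WB.dd (L + 1) K) =
        fun K => Nat.clog 2 (Pool.Agent.H54.WB.dd L K) := by
      funext K
      exact Function.iterate_succ_apply' _ _ _
    rw [e]
    exact GR.clog ih

theorem tw_le_succ (l d : ℕ) : Tw l d ≤ Tw (l + 1) d := Nat.lt_two_pow_self.le

theorem tw_mono (d : ℕ) : Monotone fun l => Tw l d := monotone_nat_of_le_succ fun l => tw_le_succ l d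

theorem tw_shift (l d : ℕ) : Tw (l + 1) d = Tw l (2 ^ d) := by
  induction l with
  | zero => rfl
  | succ l ih =>
    show 2 ^ Tw (l + 1) d = 2 ^ Tw l (2 ^ d)
    rw [ih]

theorem tw_bound (hDDU : T_DDU) (L : ℕ) :
    ∃ c, ∀ K, Tw L (dd (L + 1) K) ≤ (K + 2) ^ c := by
  obtain ⟨-, h2, h3, -⟩ := hDDU
  set S : ℕ := ∑ K ∈ Finset.range (Tw (L + 1) 0 + 1), Tw L (dd (L + 1) K) with hS
  refine ⟨S + 1, fun K => ?_⟩
  rcases Nat.lt_or_ge (Tw (L + 1) 0) K with h | h
  · obtain ⟨hd0, hd1, -⟩ := h2 (L + 1) K h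
    set d : ℕ := dd (L + 1) K with hd
    have h4 : d ≤ 2 ^ (d - 1) := by
      have : d - 1 < 2 ^ (d - 1) := Nat.lt_two_pow_self
      omega
    have h5 : Tw L d ≤ Tw L (2 ^ (d - 1)) := h3 L _ _ h4
    rw [← tw_shift] at h5
    have h6 : K ≤ (K + 2) ^ (S + 1) := by
      calc K ≤ (K + 2) ^ 1 := by rw [pow_one]; omega
        _ ≤ (K + 2) ^ (S + 1) := Nat.pow_le_pow_right (by omega) (by omega)
    omega
  · have h4 : Tw L (dd (L + 1) K) ≤ S :=
      Finset.single_le_sum (f := fun K => Tw L (dd (L + 1) K)) (fun _ _ => Nat.zero_le _)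
        (Finset.mem_range.2 (by omega))
    calc Tw L (dd (L + 1) K) ≤ S := h4
      _ ≤ 2 ^ S := Nat.lt_two_pow_self.le
      _ ≤ 2 ^ (S + 1) := Nat.pow_le_pow_right (by omega) (by omega)
      _ ≤ (K + 2) ^ (S + 1) := Nat.pow_le_pow_left (by omega) _

theorem GR.tw (hDDU : T_DDU) (L : ℕ) : ∀ l ≤ L, GR (fun K => Tw l (Pool.Agent.H54.WB.dd (L + 1) K)) := by
  intro l
  induction l with
  | zero =>
    intro _
    exact GR.dd (L + 1)
  | succ l ih =>
    intro hl
    obtain ⟨c, hc⟩ := tw_bound hDDU L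
    refine GR.pow (ih (by omega)) c fun u => ?_
    exact (tw_mono _ hl).trans (hc u)

theorem GR.sz (hDDU : T_DDU) (L : ℕ) :
    ∀ l ≤ L + 1, GR (fun K => Pool.Agent.H54.WB.sz (Pool.Agent.H54.WB.dd (L + 1) K) l) := by
  intro l
  induction l with
  | zero =>
    intro _
    exact GR.num 0
  | succ l ih =>
    intro hl
    exact (GR.num 1).add ((GR.tw hDDU L l (by omega)).mul (ih (by omega)))

theorem pf_GRT (hDDU : T_DDU) : T_GRT := by
  refine ⟨fun L hL => ?_, fun κ => ?_⟩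
  · obtain ⟨L, rfl⟩ : ∃ M, L = M + 1 := ⟨L - 1, by omega⟩
    exact ((GR.num 2).mul (GR.dd (L + 1))).add ((GR.id.mul GR.id).mul
      ((GR.num 1).add ((GR.num 2).mul (GR.sz hDDU L (L + 1) le_rfl))))
  · exact ((GR.num 4).mul ((GR.clog GR.id).sub (GR.num κ))).add (GR.id.mul GR.id)

end Pool.Agent.H69.WB
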