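import Pool.Agent.H54.WB.Rules
import Pool.Agent.H54.WB.TargetsA
import Pool.Agent.H69.WB.Cal

/-!
# Row TDF: the rules for nested numbers are first-order definable
-/

set_option autoImplicit false

namespace Pool.Agent.H69.WB

open Pool.Agent.H54.WB

section
variable {Q : Type} {L : ℕ}

/-- the labels -/
abbrev La (L : ℕ) (Q : Type) : Type := Fin (L + 3) × Bool × Bool × Q

/-- the role -/
def Ro {V : Type} (lb : V → La L Q) (v : V) : ℕ := ((lb v).1 : ℕ)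

/-- the bit -/
def Bt {V : Type} (lb : V → La L Q) (v : V) : Bool := (lb v).2.1

/-- the mark -/
def Mk {V : Type} (lb : V → La L Q) (v : V) : Bool := (lb v).2.2.1

/-- the tile -/
def Ti {V : Type} (lb : V → La L Q) (v : V) : Q := (lb v).2.2.2

theorem d_ro {n : ℕ} (c : ℕ) (i : Fin n) : DF (Λ := La L Q) n (fun _ lb _ w => Ro lb (w i) = c) :=
  DF.lab (fun a : La L Q => (a.1 : ℕ) = c) i

theorem d_bt {n : ℕ} (i : Fin n) : DF (Λ := La L Q) n (fun _ lb _ w => Bt lb (w i) = true) :=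
  DF.lab (fun a : La L Q => a.2.1 = true) i

theorem d_mk {n : ℕ} (s : Bool) (i : Fin n) : DF (Λ := La L Q) n (fun _ lb _ w => Mk lb (w i) = s) :=
  DF.lab (fun a : La L Q => a.2.2.1 = s) i

/-- the order of the core -/
def Cl {V : Type} (lb : V → La L Q) (E : V → V → Prop) (u v : V) : Prop :=
  CLt E (fun v => Ro lb v = 0) (fun v => Ro lb v = L + 2) u v

theorem d_cl : DF (Λ := La L Q) 2 (fun _ lb E w => Cl lb E (w 0) (w 1)) := by
  refine (d_ro 0 0).and ((d_ro 0 1).and (DF.ex ?_))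
  exact (d_ro (L + 2) 2).and ((DF.adj 2 0).and (DF.adj 2 1).not)

theorem d_pos (l : ℕ) : DF (Λ := La L Q) 2 (fun _ lb E w => Pos E (Ro lb) l (w 0) (w 1)) := by
  cases l with
  | zero => exact d_ro 0 1
  | succ l => exact (DF.adj 0 1).and (d_ro (l + 1) 1)

theorem d_on (l : ℕ) : DF (Λ := La L Q) 2 (fun _ lb E w => On E (Bt lb) l (w 0) (w 1)) := by
  cases l with
  | zero => exact DF.adj 0 1
  | succ l => exact d_bt 1

theorem d_same (l : ℕ) :
    DF (Λ := La L Q) 2 (fun _ lb E w => Same E (Ro lb) (Bt lb) l (w 0) (w 1)) := by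
  induction l with
  | zero => exact DF.eq 0 1
  | succ l ih =>
    refine DF.all (DF.all ?_)
    exact ((d_pos l).sub ![0, 2]).imp (((d_pos l).sub ![1, 3]).imp ((ih.sub ![2, 3]).imp
      (((d_on l).sub ![0, 2]).iff ((d_on l).sub ![1, 3]))))

theorem d_lt (l : ℕ) : DF (Λ := La L Q) 2
    (fun _ lb E w => Lt E (Ro lb) (Bt lb) (fun v => Ro lb v = L + 2) l (w 0) (w 1)) := by
  induction l with
  | zero => exact d_cl
  | succ l ih =>
    refine DF.ex (DF.ex ?_)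
    refine ((d_pos l).sub ![0, 2]).and (((d_pos l).sub ![1, 3]).and
      (((d_same l).sub ![2, 3]).and (((d_on l).sub ![0, 2]).not.and (((d_on l).sub ![1, 3]).and
        (DF.all (DF.all ?_))))))
    exact ((d_pos l).sub ![0, 4]).imp (((d_pos l).sub ![1, 5]).imp (((d_same l).sub ![4, 5]).imp
      ((ih.sub ![2, 4]).imp (((d_on l).sub ![0, 4]).iff ((d_on l).sub ![1, 5])))))

theorem d_suc (l : ℕ) : DF (Λ := La L Q) 2
    (fun _ lb E w => Suc E (Ro lb) (Bt lb) (fun v => Ro lb v = L + 2) l (w 0) (w 1)) := by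
  refine DF.ex (DF.ex ?_)
  refine ((d_pos l).sub ![0, 2]).and (((d_pos l).sub ![1, 3]).and
    (((d_same l).sub ![2, 3]).and (((d_on l).sub ![0, 2]).not.and (((d_on l).sub ![1, 3]).and
      (DF.all (DF.all ?_))))))
  exact ((d_pos l).sub ![0, 4]).imp (((d_pos l).sub ![1, 5]).imp (((d_same l).sub ![4, 5]).imp
    ((((d_lt l).sub ![2, 4]).imp (((d_on l).sub ![0, 4]).iff ((d_on l).sub ![1, 5]))).and
      (((d_lt l).sub ![4, 2]).imp (((d_on l).sub ![0, 4]).and ((d_on l).sub ![1, 5]).not)))))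

theorem d_zer (l : ℕ) :
    DF (Λ := La L Q) 1 (fun _ lb E w => Zer E (Ro lb) (Bt lb) l (w 0)) := by
  refine DF.all ?_
  exact ((d_pos l).sub ![0, 1]).imp ((d_on l).sub ![0, 1]).not

theorem d_max (l : ℕ) :
    DF (Λ := La L Q) 1 (fun _ lb E w => Max E (Ro lb) (Bt lb) l (w 0)) := by
  refine DF.all ?_
  exact ((d_pos l).sub ![0, 1]).imp ((d_on l).sub ![0, 1])

theorem d_hi (l : ℕ) : DF (Λ := La L Q) 1
    (fun _ lb E w => Hi E (Ro lb) (Bt lb) (fun v => Ro lb v = L + 2) l (w 0)) := by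
  induction l with
  | zero =>
    refine (d_ro 0 0).and (DF.all ?_)
    exact (d_cl.sub ![0, 1]).not
  | succ l ih =>
    refine DF.ex ?_
    exact ((d_pos l).sub ![0, 1]).and (((d_on l).sub ![0, 1]).and (ih.sub ![1]))

theorem d_dg (s : Bool) :
    DF (Λ := La L Q) 2 (fun _ lb E w => Dg E (Ro lb) (Mk lb) L s (w 0) (w 1)) :=
  (DF.adj 0 1).and ((d_ro L 1).and (d_mk s 1))

/-! ### the chain -/

theorem d_seg : DF (Λ := La L Q) 2
    (fun _ lb E w => ∀ u, Ro lb u = 0 → (E (w 0) u ↔ Cl lb E u (w 1))) := by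
  refine DF.all ?_
  exact (d_ro 0 2).imp ((DF.adj 0 2).iff (d_cl.sub ![2, 1]))

theorem d_chn : DF (Λ := La L Q) 0
    (fun _ lb E _ => Chn E (fun v => Ro lb v = 0) (fun v => Ro lb v = L + 2)) := by
  have h1 : DF (Λ := La L Q) 0 (fun _ lb E _ => ∀ u v, Cl lb E u v → ¬ Cl lb E v u) := by
    refine DF.all (DF.all ?_)
    exact (d_cl.sub ![0, 1]).imp (d_cl.sub ![1, 0]).not
  have h2 : DF (Λ := La L Q) 0 (fun _ lb E _ => ∀ u v, Ro lb u = 0 → Ro lb v = 0 → u ≠ v →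
      Cl lb E u v ∨ Cl lb E v u) := by
    refine DF.all (DF.all ?_)
    exact (d_ro 0 0).imp ((d_ro 0 1).imp ((DF.eq 0 1).not.imp
      ((d_cl.sub ![0, 1]).or (d_cl.sub ![1, 0]))))
  have h3 : DF (Λ := La L Q) 0 (fun _ lb E _ => ∀ v, Ro lb v = 0 → ∃ c, Ro lb c = L + 2 ∧
      ∀ u, Ro lb u = 0 → (E c u ↔ Cl lb E u v)) := by
    refine DF.all ((d_ro 0 0).imp (DF.ex ((d_ro (L + 2) 1).and ?_)))
    exact d_seg.sub ![1, 0]
  have h4 : DF (Λ := La L Q) 0 (fun _ lb E _ => ∀ v, Ro lb v = 0 → ∀ c c', Ro lb c = L + 2 →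
      Ro lb c' = L + 2 → (∀ u, Ro lb u = 0 → (E c u ↔ Cl lb E u v)) →
      (∀ u, Ro lb u = 0 → (E c' u ↔ Cl lb E u v)) → c = c') := by
    refine DF.all ((d_ro 0 0).imp (DF.all (DF.all ?_)))
    exact (d_ro (L + 2) 1).imp ((d_ro (L + 2) 2).imp ((d_seg.sub ![1, 0]).imp
      ((d_seg.sub ![2, 0]).imp (DF.eq 1 2))))
  have h5 : DF (Λ := La L Q) 0 (fun _ lb E _ => ∀ c, Ro lb c = L + 2 → ∃ v, Ro lb v = 0 ∧
      ∀ u, Ro lb u = 0 → (E c u ↔ Cl lb E u v)) := by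
    refine DF.all ((d_ro (L + 2) 0).imp (DF.ex ((d_ro 0 1).and ?_)))
    exact d_seg.sub ![0, 1]
  refine (h1.and (h2.and (h3.and (h4.and h5)))).congr fun V lb E w => ?_
  exact ⟨fun ⟨a, b, c, d, e⟩ => ⟨a, b, c, d, e⟩, fun h => ⟨h.asym, h.tot, h.ex, h.un, h.all⟩⟩

/-! ### the grid -/

/-- equal coordinates -/
def Sm {V : Type} (lb : V → La L Q) (E : V → V → Prop) (s : Bool) (z w : V) : Prop :=
  ∀ x y, Dg E (Ro lb) (Mk lb) L s z x → Dg E (Ro lb) (Mk lb) L s w y → Same E (Ro lb) (Bt lb) L x y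

/-- successor of the coordinate -/
def Sc {V : Type} (lb : V → La L Q) (E : V → V → Prop) (s : Bool) (z w : V) : Prop :=
  ∀ x y, Dg E (Ro lb) (Mk lb) L s z x → Dg E (Ro lb) (Mk lb) L s w y →
    Suc E (Ro lb) (Bt lb) (fun v => Ro lb v = L + 2) (L - 1) x y

/-- the coordinate is `0` -/
def Zr {V : Type} (lb : V → La L Q) (E : V → V → Prop) (s : Bool) (z : V) : Prop :=
  ∀ x, Dg E (Ro lb) (Mk lb) L s z x → Zer E (Ro lb) (Bt lb) (L - 1) x

theorem d_sm (s : Bool) : DF (Λ := La L Q) 2 (fun _ lb E w => Sm lb E s (w 0) (w 1)) := by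
  refine DF.all (DF.all ?_)
  exact ((d_dg s).sub ![0, 2]).imp (((d_dg s).sub ![1, 3]).imp ((d_same L).sub ![2, 3]))

theorem d_sc (s : Bool) : DF (Λ := La L Q) 2 (fun _ lb E w => Sc lb E s (w 0) (w 1)) := by
  refine DF.all (DF.all ?_)
  exact ((d_dg s).sub ![0, 2]).imp (((d_dg s).sub ![1, 3]).imp ((d_suc (L - 1)).sub ![2, 3]))

theorem d_zr (s : Bool) : DF (Λ := La L Q) 1 (fun _ lb E w => Zr lb E s (w 0)) := by
  refine DF.all ?_
  exact ((d_dg s).sub ![0, 1]).imp ((d_zer (L - 1)).sub ![1])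

theorem d_nsc (s : Bool) : DF (Λ := La L Q) 1
    (fun _ lb E w => ¬ ∃ v, Ro lb v = L + 1 ∧ Sc lb E s (w 0) v) := by
  refine DF.not (DF.ex ?_)
  exact (d_ro (L + 1) 1).and ((d_sc s).sub ![0, 1])

theorem d_grid [Finite Q] (U : Bool → Bool → Bool → Bool → Q → Prop) (Hh Vv : Q → Q → Prop) :
    DF (Λ := La L Q) 0 (fun _ lb E _ =>
      GridR U Hh Vv (fun z => Ro lb z = L + 1) (Sm lb E) (Sc lb E) (Zr lb E) (Ti lb)) := by
  have h1 : DF (Λ := La L Q) 0 (fun _ lb E _ => ∀ z z', Ro lb z = L + 1 → Ro lb z' = L + 1 →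
      Sm lb E true z z' → Sm lb E false z z' → z = z') := by
    refine DF.all (DF.all ?_)
    exact (d_ro (L + 1) 0).imp ((d_ro (L + 1) 1).imp (((d_sm true).sub ![0, 1]).imp
      (((d_sm false).sub ![0, 1]).imp (DF.eq 0 1))))
  have h2 : DF (Λ := La L Q) 0 (fun _ lb E _ => ∀ z z', Ro lb z = L + 1 → Ro lb z' = L + 1 →
      ∃ w, Ro lb w = L + 1 ∧ Sm lb E true z w ∧ Sm lb E false z' w) := by
    refine DF.all (DF.all ((d_ro (L + 1) 0).imp ((d_ro (L + 1) 1).imp (DF.ex ?_))))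
    exact (d_ro (L + 1) 2).and (((d_sm true).sub ![0, 2]).and ((d_sm false).sub ![1, 2]))
  have h3 : DF (Λ := La L Q) 0 (fun _ lb E _ => ∀ s z, Ro lb z = L + 1 → Zr lb E s z ∨
      ∃ w, Ro lb w = L + 1 ∧ Sc lb E s w z) := by
    refine DF.allF fun s => DF.all ((d_ro (L + 1) 0).imp (((d_zr s).sub ![0]).or (DF.ex ?_)))
    exact (d_ro (L + 1) 1).and ((d_sc s).sub ![1, 0])
  have h4 : DF (Λ := La L Q) 0 (fun _ lb _ _ => ∃ z, Ro lb z = L + 1) := by
    refine DF.ex ?_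
    exact d_ro (L + 1) 0
  have h5 : DF (Λ := La L Q) 0 (fun _ lb E _ => ∀ z, Ro lb z = L + 1 → ∀ a b c d : Bool,
      (a = true ↔ Zr lb E true z) → (b = true ↔ ¬ ∃ w, Ro lb w = L + 1 ∧ Sc lb E true z w) →
      (c = true ↔ Zr lb E false z) → (d = true ↔ ¬ ∃ w, Ro lb w = L + 1 ∧ Sc lb E false z w) →
      U a b c d (Ti lb z)) := by
    refine DF.all ((d_ro (L + 1) 0).imp (DF.allF fun a => DF.allF fun b => DF.allF fun c =>
      DF.allF fun d => ?_))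
    exact ((DF.const _).iff ((d_zr true).sub ![0])).imp
      (((DF.const _).iff ((d_nsc true).sub ![0])).imp
        (((DF.const _).iff ((d_zr false).sub ![0])).imp
          (((DF.const _).iff ((d_nsc false).sub ![0])).imp
            (DF.lab (fun l : La L Q => U a b c d l.2.2.2) 0))))
  have h6 : DF (Λ := La L Q) 0 (fun _ lb E _ => ∀ z z', Ro lb z = L + 1 → Ro lb z' = L + 1 →
      Sc lb E true z z' → Sm lb E false z z' → Hh (Ti lb z) (Ti lb z')) := by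
    refine DF.all (DF.all ?_)
    exact (d_ro (L + 1) 0).imp ((d_ro (L + 1) 1).imp (((d_sc true).sub ![0, 1]).imp
      (((d_sm false).sub ![0, 1]).imp (DF.lab2 (fun a b : La L Q => Hh a.2.2.2 b.2.2.2) 0 1))))
  have h7 : DF (Λ := La L Q) 0 (fun _ lb E _ => ∀ z z', Ro lb z = L + 1 → Ro lb z' = L + 1 →
      Sm lb E true z z' → Sc lb E false z z' → Vv (Ti lb z) (Ti lb z')) := by
    refine DF.all (DF.all ?_)
    exact (d_ro (L + 1) 0).imp ((d_ro (L + 1) 1).imp (((d_sm true).sub ![0, 1]).imp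
      (((d_sc false).sub ![0, 1]).imp (DF.lab2 (fun a b : La L Q => Vv a.2.2.2 b.2.2.2) 0 1))))
  refine (h1.and (h2.and (h3.and (h4.and (h5.and (h6.and h7)))))).congr fun V lb E w => ?_
  exact ⟨fun ⟨a, b, c, d, e, f, g⟩ => ⟨a, b, c, d, e, f, g⟩,
    fun h => ⟨h.gi, h.gp, h.gd, h.ne, h.un, h.hh, h.vv⟩⟩

theorem d_rule [Finite Q] (U : Bool → Bool → Bool → Bool → Q → Prop) (Hh Vv : Q → Q → Prop) :
    DF (Λ := La L Q) 0 (fun _ lb E _ => TRule L U Hh Vv E (Ro lb) (Bt lb) (Mk lb) (Ti lb)) := by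
  have h1 : DF (Λ := La L Q) 0 (fun _ lb _ _ => ∀ v, Ro lb v ≤ L + 2) := by
    refine DF.all ?_
    exact DF.lab (fun a : La L Q => (a.1 : ℕ) ≤ L + 2) 0
  have h2 : DF (Λ := La L Q) 0 (fun _ lb E _ => ∀ u v, E u v → TEdge L (Ro lb u) (Ro lb v)) := by
    refine DF.all (DF.all ?_)
    exact (DF.adj 0 1).imp (DF.lab2 (fun a b : La L Q => TEdge L (a.1 : ℕ) (b.1 : ℕ)) 0 1)
  have h4 : DF (Λ := La L Q) 0 (fun _ lb E _ => ∀ v, 1 ≤ Ro lb v → Ro lb v ≤ L →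
      ∃! u, E v u ∧ Ro lb u = Ro lb v + 1) := by
    refine DF.all ((DF.lab (fun a : La L Q => 1 ≤ (a.1 : ℕ)) 0).imp
      ((DF.lab (fun a : La L Q => (a.1 : ℕ) ≤ L) 0).imp (DF.exu ?_)))
    exact (DF.adj 0 1).and (DF.lab2 (fun a b : La L Q => (a.1 : ℕ) = (b.1 : ℕ) + 1) 1 0)
  have h5 : DF (Λ := La L Q) 0 (fun _ lb E _ => ∀ (l : ℕ) x y y', 1 ≤ l → l < L →
      Ro lb x = l + 1 → Pos E (Ro lb) l x y → Pos E (Ro lb) l x y' →
      Same E (Ro lb) (Bt lb) l y y' → y = y') := by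
    refine DF.allN L (fun l => DF.all (DF.all (DF.all ?_)))
      (fun l hl V lb E w x y y' _ h => absurd h (by omega))
    exact (DF.const _).imp ((DF.const _).imp ((d_ro (l + 1) 0).imp (((d_pos l).sub ![0, 1]).imp
      (((d_pos l).sub ![0, 2]).imp (((d_same l).sub ![1, 2]).imp (DF.eq 1 2))))))
  have h6 : DF (Λ := La L Q) 0 (fun _ lb E _ => ∀ (l : ℕ) x, l + 1 < L → Ro lb x = l + 2 →
      ∃ y, Pos E (Ro lb) (l + 1) x y ∧ Zer E (Ro lb) (Bt lb) l y) := by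
    refine DF.allN L (fun l => DF.all ((DF.const _).imp ((d_ro (l + 2) 0).imp (DF.ex ?_))))
      (fun l hl V lb E w x h => absurd h (by omega))
    exact ((d_pos (l + 1)).sub ![0, 1]).and ((d_zer l).sub ![1])
  have h7 : DF (Λ := La L Q) 0 (fun _ lb E _ => ∀ (l : ℕ) x y, l + 1 < L → Ro lb x = l + 2 →
      Pos E (Ro lb) (l + 1) x y → Max E (Ro lb) (Bt lb) l y ∨
      ∃ y', Pos E (Ro lb) (l + 1) x y' ∧
        Suc E (Ro lb) (Bt lb) (fun v => Ro lb v = L + 2) l y y') := by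
    refine DF.allN L (fun l => DF.all (DF.all ((DF.const _).imp ((d_ro (l + 2) 0).imp
      (((d_pos (l + 1)).sub ![0, 1]).imp (((d_max l).sub ![1]).or (DF.ex ?_)))))))
      (fun l hl V lb E w x y h => absurd h (by omega))
    exact ((d_pos (l + 1)).sub ![0, 2]).and ((d_suc l).sub ![1, 2])
  have h8 : DF (Λ := La L Q) 0 (fun _ lb E _ => ∀ z s, Ro lb z = L + 1 →
      ∃! y, Dg E (Ro lb) (Mk lb) L s z y) := by
    refine DF.all (DF.allF fun s => (d_ro (L + 1) 0).imp (DF.exu ?_))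
    exact (d_dg s).sub ![0, 1]
  have h9 : DF (Λ := La L Q) 0 (fun _ lb E _ => ∃ z y, Ro lb z = L + 1 ∧
      Dg E (Ro lb) (Mk lb) L true z y ∧
      Hi E (Ro lb) (Bt lb) (fun v => Ro lb v = L + 2) L y) := by
    refine DF.ex (DF.ex ?_)
    exact (d_ro (L + 1) 0).and (((d_dg true).sub ![0, 1]).and ((d_hi L).sub ![1]))
  refine (h1.and (h2.and (d_chn.and (h4.and (h5.and (h6.and (h7.and (h8.and
    (h9.and (d_grid U Hh Vv)))))))))).congr fun V lb E w => ?_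
  exact ⟨fun ⟨a, b, c, d, e, f, g, h, i, j⟩ => ⟨a, b, c, d, e, f, g, h, i, j⟩,
    fun h => ⟨h.rng, h.edge, h.chn, h.par, h.inj, h.zer, h.suc, h.cel, h.hi, h.grid⟩⟩

end

theorem pf_TDF : T_TDF := by
  intro Q _ L U Hh Vv _
  exact (d_rule (L := L) U Hh Vv).toDf fun V lb E e => Iff.rfl

end Pool.Agent.H69.WB
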